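import Pool.Agent.Run7.h677.PS.Stm

/-! # AVG, K1 (project PS of helper677) -/

set_option autoImplicit false

namespace Pool.Agent.Run7.h677.PS
open Finset

theorem t_AVG : S_AVG := by
  intro d n h i hn
  classical
  by_contra hcon
  push Not at hcon
  have hset : ∀ p : Tup d n → Prop, {f : Tup d n | p f}.ncard = (univ.filter p).card := by
    intro p
    rw [Set.ncard_eq_toFinset_card']
    congr 1
    ext f; simp
  have hA : ∀ w : Fin n, {f : Tup d n | h (Function.update f i w) ≠ 0}.ncard =
      n * {f : Tup d n | f i = w ∧ h f ≠ 0}.ncard := by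
    intro w
    rw [hset, hset]
    rw [card_eq_sum_card_fiberwise (f := fun f : Tup d n => f i) (t := univ) (by simp)]
    refine (sum_congr rfl fun x _ => ?_).trans (by
      rw [sum_const, card_univ, Fintype.card_fin, smul_eq_mul])
    refine card_bij' (fun f _ => Function.update f i w) (fun g _ => Function.update g i x)
      ?_ ?_ ?_ ?_
    · intro f hf
      simp only [mem_filter, mem_univ, true_and] at hf ⊢
      exact ⟨by simp, hf.1⟩
    · intro g hg
      simp only [mem_filter, mem_univ, true_and] at hg ⊢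
      refine ⟨?_, by simp⟩
      rw [Function.update_idem, ← hg.1, Function.update_eq_self]
      exact hg.2
    · intro f hf
      simp only [mem_filter, mem_univ, true_and] at hf
      rw [Function.update_idem, ← hf.2, Function.update_eq_self]
    · intro g hg
      simp only [mem_filter, mem_univ, true_and] at hg
      rw [Function.update_idem, ← hg.1, Function.update_eq_self]
  have hN : {f : Tup d n | h f ≠ 0}.ncard =
      ∑ w : Fin n, {f : Tup d n | f i = w ∧ h f ≠ 0}.ncard := by
    simp only [hset]
    rw [card_eq_sum_card_fiberwise (f := fun f : Tup d n => f i) (t := univ) (by simp)]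
    refine sum_congr rfl fun w _ => ?_
    congr 1
    ext f
    simp only [mem_filter, mem_univ, true_and]
    exact and_comm
  have hne : (univ : Finset (Fin n)).Nonempty := ⟨⟨0, hn⟩, mem_univ _⟩
  have h1 := sum_lt_sum_of_nonempty hne fun w _ => hcon w
  rw [sum_const, card_univ, Fintype.card_fin, smul_eq_mul, sum_congr rfl fun w _ => hA w,
    ← mul_sum, ← hN] at h1
  exact lt_irrefl _ h1

lemma kv_sum_h270 {d : ℕ} (a : Fin d → ℤ) (π : Equiv.Perm (Fin d)) (j : Fin (d + 1)) :
    ∑ i, kv a π j i = ∑ i, a i + j := by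
  unfold kv
  rw [sum_add_distrib]
  congr 1
  rw [Equiv.sum_comp π.symm (fun k : Fin d => if (k : ℕ) < (j : ℕ) then (1 : ℤ) else 0)]
  rw [Fin.sum_univ_eq_sum_range (fun k => if k < (j : ℕ) then (1 : ℤ) else 0) d]
  rw [← sum_filter]
  have : (range d).filter (fun k => k < (j : ℕ)) = range j := by
    ext k
    simp only [mem_filter, mem_range]
    have := j.2
    omega
  rw [this]
  simp

theorem t_K1 : S_K1 := by
  intro d a π
  have inj : ∀ (a : Fin d → ℤ) (π : Equiv.Perm (Fin d)), Function.Injective (kv a π) := by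
    intro a π j k h
    have h1 := kv_sum_h270 a π j
    rw [h, kv_sum_h270 a π k] at h1
    exact Fin.ext (by omega)
  refine ⟨inj a π, fun b ρ h => ?_⟩
  have hex : ∀ (a b : Fin d → ℤ) (π ρ : Equiv.Perm (Fin d)), ks a π = ks b ρ →
      ∀ j, ∃ k, kv b ρ k = kv a π j := by
    intro a b π ρ h j
    have : kv a π j ∈ ks b ρ := by
      rw [← h]; exact mem_image_of_mem _ (mem_univ j)
    unfold ks at this
    rw [mem_image] at this
    obtain ⟨k, -, hk⟩ := this
    exact ⟨k, hk⟩
  have hsum : ∑ i, a i = ∑ i, b i := by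
    obtain ⟨k, hk⟩ := hex a b π ρ h 0
    obtain ⟨l, hl⟩ := hex b a ρ π h.symm 0
    have h1 := kv_sum_h270 a π 0
    have h2 := kv_sum_h270 b ρ 0
    have h3 := kv_sum_h270 b ρ k
    have h4 := kv_sum_h270 a π l
    rw [hk] at h3
    rw [hl] at h4
    simp only [Fin.val_zero, Nat.cast_zero] at h1 h2
    omega
  have heq : ∀ j, kv a π j = kv b ρ j := by
    intro j
    obtain ⟨k, hk⟩ := hex a b π ρ h j
    have h1 := kv_sum_h270 a π j
    have h2 := kv_sum_h270 b ρ k
    rw [hk] at h2
    have : k = j := Fin.ext (by omega)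
    rw [← hk, this]
  have hab : a = b := by
    funext i
    have := congrFun (heq 0) i
    simpa [kv] using this
  refine ⟨hab, ?_⟩
  have hiff : ∀ (i : Fin d) (j : Fin (d + 1)), ((π.symm i : Fin d) : ℕ) < (j : ℕ) ↔
      ((ρ.symm i : Fin d) : ℕ) < (j : ℕ) := by
    intro i j
    have := congrFun (heq j) i
    rw [hab] at this
    unfold kv at this
    by_cases h1 : ((π.symm i : Fin d) : ℕ) < (j : ℕ) <;>
      by_cases h2 : ((ρ.symm i : Fin d) : ℕ) < (j : ℕ)
    · exact ⟨fun _ => h2, fun _ => h1⟩
    · rw [if_pos h1, if_neg h2] at this; omega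
    · rw [if_neg h1, if_pos h2] at this; omega
    · exact ⟨fun h => absurd h h1, fun h => absurd h h2⟩
  have hsymm : π.symm = ρ.symm := by
    ext i
    have h1 := (hiff i ⟨(π.symm i : ℕ) + 1, by have := (π.symm i).2; omega⟩).mp (by simp)
    have h2 := (hiff i ⟨(ρ.symm i : ℕ) + 1, by have := (ρ.symm i).2; omega⟩).mpr (by simp)
    simp only at h1 h2
    omega
  have := congrArg Equiv.symm hsymm
  simpa using this

end Pool.Agent.Run7.h677.PS

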