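import Pool.Agent.Run7.h677.PS.Stm

/-! # SM1 (project PS of helper677) -/

set_option autoImplicit false

namespace Pool.Agent.Run7.h677.PS
open Finset

theorem t_SM1 : S_SM1 := by
  intro d n X hX A
  classical
  induction A using Finset.induction_on with
  | empty =>
    intro _ q
    have : {f : Tup d n | q ∈ hullX X ∅ f} = ∅ := by
      ext f
      simp [hullX]
    rw [this]; simp
  | insert i A hi ih =>
    intro hc q
    rw [card_insert_of_notMem hi] at hc
    obtain ⟨N, hN⟩ : ∃ N : Set (Tup d n),
      N = {f | q ∈ hullX X (insert i A) f ∧ q ∉ hullX X A f} := ⟨_, rfl⟩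
    have hsub : {f : Tup d n | q ∈ hullX X (insert i A) f} ⊆
        {f : Tup d n | q ∈ hullX X A f} ∪ N := by
      intro f hf
      by_cases h : q ∈ hullX X A f
      · exact Or.inl h
      · right; rw [hN]; exact ⟨hf, h⟩
    have hNc : N.ncard ≤ n ^ d := by
      have inj : Set.InjOn (fun (f : Tup d n) (j : {j : Fin (d + 1) // j ≠ i}) => f j) N := by
        intro f hf f' hf' heq
        rw [hN] at hf hf'
        obtain ⟨h1, h2⟩ := hf
        obtain ⟨h1', h2'⟩ := hf'
        have hag : ∀ j, j ≠ i → f j = f' j := fun j hj => congrFun heq ⟨j, hj⟩
        by_contra hne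
        have hfi : f i ≠ f' i := by
          intro h
          apply hne
          funext j
          by_cases hj : j = i
          · rw [hj]; exact h
          · exact hag j hj
        -- the index set
        set y : Finset (Fin (d + 1) × Fin n) :=
          insert (i, f i) (insert (i, f' i) (A.image fun j => (j, f j))) with hy
        have hyc : y.card ≤ d + 1 := by
          refine (card_insert_le _ _).trans ?_
          have a1 := card_insert_le (i, f' i) (A.image fun j => (j, f j))
          have a2 : (A.image fun j => (j, f j)).card ≤ A.card := card_image_le
          omega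
        have hind := hX ∅ rfl y (by simpa using hyc)
        have hind2 : AffineIndependent ℝ (fun a : y => unc X a) :=
          hind.comp_embedding ⟨Sum.inr, Sum.inr_injective⟩
        have hinj : Set.InjOn (unc X) (y : Set (Fin (d + 1) × Fin n)) := by
          intro a ha b hb hab
          have := hind2.injective (a₁ := ⟨a, ha⟩) (a₂ := ⟨b, hb⟩) hab
          exact congrArg Subtype.val this
        set s : Finset (E d) := y.image (unc X) with hs
        have hinds : AffineIndependent ℝ ((↑) : s → E d) := by
          have := hind2.range
          have e : Set.range (fun a : y => unc X a) = (s : Set (E d)) := by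
            ext z
            simp [hs]
          rw [e] at this
          exact this
        set t1 : Finset (E d) := (insert (i, f i) (A.image fun j => (j, f j))).image (unc X) with ht1
        set t2 : Finset (E d) := (insert (i, f' i) (A.image fun j => (j, f j))).image (unc X) with ht2
        have ht1s : t1 ⊆ s := image_subset_image (by
          intro a ha
          rw [hy]
          rw [mem_insert] at ha
          rcases ha with ha | ha
          · exact mem_insert.mpr (Or.inl ha)
          · exact mem_insert_of_mem (mem_insert_of_mem ha))
        have ht2s : t2 ⊆ s := image_subset_image (subset_insert _ _)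
        have hcap := hinds.convexHull_inter ht1s ht2s
        have hq1 : q ∈ convexHull ℝ (t1 : Set (E d)) := by
          unfold hullX at h1
          refine convexHull_mono ?_ h1
          rintro _ ⟨j, hj, rfl⟩
          rw [coe_insert] at hj
          rw [ht1, coe_image]
          rcases hj with hj | hj
          · subst hj
            exact ⟨(j, f j), mem_coe.mpr (mem_insert_self _ _), rfl⟩
          · exact ⟨(j, f j), mem_coe.mpr (mem_insert_of_mem (mem_image_of_mem _ hj)), rfl⟩
        have hq2 : q ∈ convexHull ℝ (t2 : Set (E d)) := by
          unfold hullX at h1'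
          refine convexHull_mono ?_ h1'
          rintro _ ⟨j, hj, rfl⟩
          rw [coe_insert] at hj
          rw [ht2, coe_image]
          rcases hj with hj | hj
          · subst hj
            exact ⟨(j, f' j), mem_coe.mpr (mem_insert_self _ _), rfl⟩
          · have hji : j ≠ i := fun h => hi (h ▸ hj)
            refine ⟨(j, f j), mem_coe.mpr (mem_insert_of_mem (mem_image_of_mem _ hj)), ?_⟩
            change X j (f j) = X j (f' j)
            rw [hag j hji]
        have hq : q ∈ convexHull ℝ ((t1 : Set (E d)) ∩ t2) := by
          rw [hcap]; exact ⟨hq1, hq2⟩
        apply h2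
        unfold hullX
        refine convexHull_mono ?_ hq
        rintro z ⟨hz1, hz2⟩
        rw [ht1, coe_image] at hz1
        rw [ht2, coe_image] at hz2
        obtain ⟨a, ha, rfl⟩ := hz1
        obtain ⟨b, hb, hab⟩ := hz2
        have hay : a ∈ (y : Set _) := by
          rw [mem_coe, mem_insert] at ha
          rw [hy, mem_coe]
          rcases ha with ha | ha
          · exact mem_insert.mpr (Or.inl ha)
          · exact mem_insert_of_mem (mem_insert_of_mem ha)
        have hby : b ∈ (y : Set _) := by
          rw [mem_coe] at hb
          rw [hy, mem_coe]
          exact mem_insert_of_mem hb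
        have hba : b = a := hinj hby hay hab
        subst hba
        rw [mem_coe, mem_insert] at ha hb
        rcases ha with ha | ha
        · rcases hb with hb | hb
          · exfalso
            rw [ha] at hb
            exact hfi (congrArg Prod.snd hb)
          · rw [mem_image] at hb
            obtain ⟨j, hj, hjb⟩ := hb
            exact ⟨j, hj, by rw [← hjb]; rfl⟩
        · rw [mem_image] at ha
          obtain ⟨j, hj, hjb⟩ := ha
          exact ⟨j, hj, by rw [← hjb]; rfl⟩
      have h3 : N.ncard ≤ (Set.univ : Set ({j : Fin (d + 1) // j ≠ i} → Fin n)).ncard :=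
        Set.ncard_le_ncard_of_injOn _ (fun _ _ => Set.mem_univ _) inj
      rw [Set.ncard_univ, Nat.card_eq_fintype_card, Fintype.card_fun, Fintype.card_fin] at h3
      have h4 : Fintype.card {j : Fin (d + 1) // j ≠ i} = d := by
        rw [Fintype.card_subtype_compl]
        simp
      rw [h4] at h3
      exact h3
    calc {f : Tup d n | q ∈ hullX X (insert i A) f}.ncard ≤
        ({f : Tup d n | q ∈ hullX X A f} ∪ N).ncard := Set.ncard_le_ncard hsub
      _ ≤ {f : Tup d n | q ∈ hullX X A f}.ncard + N.ncard := Set.ncard_union_le _ _
      _ ≤ A.card * n ^ d + n ^ d := add_le_add (ih (by omega) q) hNc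
      _ = _ := by rw [card_insert_of_notMem hi]; ring

end Pool.Agent.Run7.h677.PS

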